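import Pool.Agent.Lib.MP_862e0f_al.Groups

/-!
# An epimorphism of locally convex Lie groups between Banach-Lie groups without dense range

There are Banach-Lie groups `G` (countable and discrete) and `H` (the additive group of the separable
Banach space `L¹([0, 1))`) and a morphism `f : G → H` whose image is not dense, but any two smooth
homomorphisms from `H` to a locally convex Lie group which agree on `f(G)` are equal. This answers the
question for the pairs (Banach-Lie groups, regular Fréchet-Lie groups) and (Banach-Lie groups,
locally convex Lie groups) in the negative.
-/

set_option autoImplicit false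

namespace Pool.Agent.Old.MP_862e0f_al.BanachPairs

open Pool.Agent.Lib.MP_862e0f_al

universe u v

theorem result : ∃ (G H : LieGrp.{0, 0}) (f : G.carrier →* H.carrier),
    G.IsBanach ∧ H.IsBanach ∧ Countable G.carrier ∧ SecondCountableTopology H.carrier ∧
      IsMorphism G H f ∧ (∀ C : LieGrp.{u, v} → Prop, IsEpi C f) ∧ ¬ DenseRange f :=
  ⟨grpG, grpH, incl, grpG_banach, grpH_banach, grpG_countable, grpH_secondCountable,
    incl_morphism, incl_epi, incl_not_dense⟩

end Pool.Agent.Old.MP_862e0f_al.BanachPairs
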