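import Pool.Agent.Lib.MP_862e0f_P.Main

/-!
# MP_862e0f_al: epimorphisms onto finite-dimensional Lie groups, regular Fréchet-Lie groups

Affirmative answer to pair 1 of Q1: let `H` be a finite-dimensional Lie group (with any number of
connected components) and let `f : G → H` be a homomorphism which is an epimorphism with respect to
regular Fréchet-Lie groups, that is, smooth homomorphisms `g₁, g₂ : H → K` to a regular Fréchet-Lie
group `K` with `g₁ ∘ f = g₂ ∘ f` are equal. Then `f` has dense range.
-/

set_option autoImplicit false

namespace Pool.Agent.Old.MP_862e0f_al.FiniteDimEpi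

open Pool.Agent.Lib.MP_862e0f_al

universe u v

/-- Every homomorphism from a Lie group `G` to a finite-dimensional Lie group `H` which is an
epimorphism with respect to regular Fréchet-Lie groups has dense range. -/
theorem result {G H : LieGrp.{u, v}} (hH : H.IsFiniteDim) (f : G.carrier →* H.carrier)
    (hf : IsEpi (fun K : LieGrp.{u, u} => K.IsFrechet ∧ K.IsRegular) f) : DenseRange f :=
  denseRange_of_isEpi_regular hH f hf

end Pool.Agent.Old.MP_862e0f_al.FiniteDimEpi
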