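import Pool.Agent.Lib.MP_862e0f_al.Mg.G003

/-!
# An epimorphism of topological groups between locally convex Lie groups without dense range

There are locally convex Lie groups `G` (countable and discrete) and `H` (second countable, with a
second countable, hence metrizable, model space) and a morphism `f : G → H` whose image is not dense,
but any two continuous homomorphisms from `H` to a Hausdorff topological group which agree on `f(G)`
are equal. This answers the question for the pair (locally convex Lie groups, topological groups)
in the negative.
-/

set_option autoImplicit false

namespace Pool.Agent.Old.MP_862e0f_al.LocallyConvexEpi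

open Pool.Agent.Lib.MP_862e0f_al

universe w

/-- `f` is an epimorphism of Hausdorff topological groups: continuous homomorphisms `g₁, g₂` from
`H` to a Hausdorff topological group `K` with `g₁ ∘ f = g₂ ∘ f` are equal. -/
def IsTopGroupEpi (G H : LieGrp.{0, 0}) (f : G.carrier →* H.carrier) : Prop :=
  ∀ (K : Type w) [Group K] [TopologicalSpace K] [IsTopologicalGroup K] [T2Space K]
    (g₁ g₂ : H.carrier →* K), Continuous g₁ → Continuous g₂ → g₁.comp f = g₂.comp f → g₁ = g₂

theorem result : ∃ (G H : LieGrp.{0, 0}) (f : G.carrier →* H.carrier),
    Countable G.carrier ∧ DiscreteTopology G.carrier ∧ SecondCountableTopology H.carrier ∧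
      SecondCountableTopology H.model ∧ ContractibleSpace H.carrier ∧ IsMorphism G H f ∧
        IsTopGroupEpi.{w} G H f ∧ ¬ DenseRange f :=
  EV.main

end Pool.Agent.Old.MP_862e0f_al.LocallyConvexEpi
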